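import Pool.Agent.Helper29.OV.Api

/-!
# Packet JOC of project OV: Ramsey's theorem inside an omega-model of ACA_0 (Jockusch)
-/

set_option autoImplicit false

namespace Pool.Agent.Helper14.OV

open Pool.Agent.Helper29.OV

section Basic

variable {𝓜 : Set (Set ℕ)} {α : Type} [Primcodable α]

theorem dMem (h : Closed 𝓜) {f : α → ℕ} {g : α → List ℕ} (hf : Primrec f) (hg : Primrec g) :
    D 𝓜 fun a => f a ∈ g a := by
  refine D.congr (P := fun a => ∃ i : ℕ, (g a)[i]? = some (f a)) ?_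
    (fun a => List.mem_iff_getElem?.symm)
  refine D.ex h (P := fun (a : α) (i : ℕ) => (g a)[i]? = some (f a)) ?_
  refine D.of_primrec h ?_
  exact Primrec.eq.comp (Primrec.list_getElem?.comp (hg.comp Primrec.fst) Primrec.snd)
    (Primrec.option_some.comp (hf.comp Primrec.fst))

theorem dSub (h : Closed 𝓜) {f g : α → List ℕ} (hf : Primrec f) (hg : Primrec g) :
    D 𝓜 fun a => ∀ x ∈ f a, x ∈ g a := by
  refine D.all h (P := fun (a : α) (x : ℕ) => x ∈ f a → x ∈ g a) ?_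
  exact D.imp h (dMem h Primrec.snd (hf.comp Primrec.fst)) (dMem h Primrec.snd (hg.comp Primrec.fst))

theorem dLt (h : Closed 𝓜) {f g : α → ℕ} (hf : Primrec f) (hg : Primrec g) :
    D 𝓜 fun a => f a < g a :=
  D.of_primrec h (Primrec.nat_lt.comp hf hg)

theorem dAllLt (h : Closed 𝓜) {f : α → List ℕ} {g : α → ℕ} (hf : Primrec f) (hg : Primrec g) :
    D 𝓜 fun a => ∀ x ∈ f a, x < g a := by
  refine D.all h (P := fun (a : α) (x : ℕ) => x ∈ f a → x < g a) ?_
  exact D.imp h (dMem h Primrec.snd (hf.comp Primrec.fst)) (dLt h Primrec.snd (hg.comp Primrec.fst))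

theorem dSet (h : Closed 𝓜) {H : Set ℕ} (hH : H ∈ 𝓜) {f : α → ℕ} (hf : Primrec f) :
    D 𝓜 fun a => f a ∈ H :=
  D.comp h (P := fun n => n ∈ H) (D.nat_iff.2 hH) hf

theorem dAllSet (h : Closed 𝓜) {H : Set ℕ} (hH : H ∈ 𝓜) {f : α → List ℕ} (hf : Primrec f) :
    D 𝓜 fun a => ∀ x ∈ f a, x ∈ H := by
  refine D.all h (P := fun (a : α) (x : ℕ) => x ∈ f a → x ∈ H) ?_
  exact D.imp h (dMem h Primrec.snd (hf.comp Primrec.fst)) (dSet h hH Primrec.snd)

theorem dLen (h : Closed 𝓜) (K : ℕ) {f : α → List ℕ} (hf : Primrec f) :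
    D 𝓜 fun a => (f a).length = K :=
  D.of_primrec h (Primrec.eq.comp (Primrec.list_length.comp hf) (Primrec.const K))

theorem dPw (h : Closed 𝓜) {f : α → List ℕ} (hf : Primrec f) :
    D 𝓜 fun a => (f a).Pairwise (· < ·) := by
  refine D.congr (P := fun a => ∀ q : ℕ × ℕ, q.1 < q.2 → q.2 < (f a).length →
    (f a).getD q.1 0 < (f a).getD q.2 0) ?_ (fun a => ?_)
  · refine D.all h (P := fun (a : α) (q : ℕ × ℕ) => q.1 < q.2 → q.2 < (f a).length →
      (f a).getD q.1 0 < (f a).getD q.2 0) ?_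
    refine D.imp h ?_ (D.imp h ?_ ?_)
    · exact dLt h (Primrec.fst.comp Primrec.snd) (Primrec.snd.comp Primrec.snd)
    · exact dLt h (Primrec.snd.comp Primrec.snd)
        (Primrec.list_length.comp (hf.comp Primrec.fst))
    · exact dLt h ((Primrec.list_getD 0).comp (hf.comp Primrec.fst) (Primrec.fst.comp Primrec.snd))
        ((Primrec.list_getD 0).comp (hf.comp Primrec.fst) (Primrec.snd.comp Primrec.snd))
  · rw [List.pairwise_iff_getElem]
    constructor
    · intro hq i j hi hj hij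
      have := hq (i, j) hij hj
      simpa [List.getD_eq_getElem?_getD, List.getElem?_eq_getElem hi,
        List.getElem?_eq_getElem hj] using this
    · rintro hq ⟨i, j⟩ hij hj
      have hi : i < (f a).length := lt_trans hij hj
      have := hq i j hi hj hij
      simpa [List.getD_eq_getElem?_getD, List.getElem?_eq_getElem hi,
        List.getElem?_eq_getElem hj] using this

theorem dP (h : Closed 𝓜) {P : List ℕ → Prop} (hP : D 𝓜 P) {f : α → List ℕ} {g : α → ℕ}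
    (hf : Primrec f) (hg : Primrec g) : D 𝓜 fun a => P (f a ++ [g a]) :=
  D.comp h hP (Primrec.list_concat.comp hf hg)

end Basic

/-- `S` is an increasing `K`-list of members of `l` -/
def InL (K : ℕ) (l S : List ℕ) : Prop :=
  S.length = K ∧ S.Pairwise (· < ·) ∧ ∀ x ∈ S, x ∈ l

/-- homogeneity inside `l` -/
def Hm (P : List ℕ → Prop) (K : ℕ) (l : List ℕ) : Prop :=
  ∀ q : List ℕ × ℕ × ℕ, InL K l q.1 → q.2.1 ∈ l → q.2.2 ∈ l → (∀ x ∈ q.1, x < q.2.1) →
    (∀ x ∈ q.1, x < q.2.2) → (P (q.1 ++ [q.2.1]) ↔ P (q.1 ++ [q.2.2]))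

/-- `b` is a possible continuation of `l` -/
def Rr (P : List ℕ → Prop) (K : ℕ) (H₀ : Set ℕ) (l : List ℕ) (b : ℕ) : Prop :=
  b ∈ H₀ ∧ (∀ x ∈ l, x < b) ∧ ∀ q : List ℕ × ℕ, InL K l q.1 → q.2 ∈ l → (∀ x ∈ q.1, x < q.2) →
    (P (q.1 ++ [b]) ↔ P (q.1 ++ [q.2]))

/-- the invariant -/
def II (P : List ℕ → Prop) (K : ℕ) (H₀ : Set ℕ) (l : List ℕ) : Prop :=
  l.Pairwise (· < ·) ∧ (∀ x ∈ l, x ∈ H₀) ∧ (∀ N : ℕ, ∃ b : ℕ, N < b ∧ Rr P K H₀ l b) ∧ Hm P K l

theorem D_II {𝓜 : Set (Set ℕ)} (h : Closed 𝓜) (K : ℕ) (H₀ : Set ℕ) (h₀ : H₀ ∈ 𝓜)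
    (P : List ℕ → Prop) (hP : D 𝓜 P) : D 𝓜 (II P K H₀) := by
  unfold II
  refine D.and h (dPw h Primrec.id) (D.and h (dAllSet h h₀ Primrec.id) (D.and h ?_ ?_))
  · refine D.all h (P := fun (l : List ℕ) (N : ℕ) => ∃ b : ℕ, N < b ∧ Rr P K H₀ l b) ?_
    refine D.ex h (P := fun (l : List ℕ × ℕ) (b : ℕ) => l.2 < b ∧ Rr P K H₀ l.1 b) ?_
    refine D.and h (dLt h (Primrec.snd.comp Primrec.fst) Primrec.snd) ?_
    unfold Rr
    refine D.and h (dSet h h₀ Primrec.snd) (D.and h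
      (dAllLt h (Primrec.fst.comp Primrec.fst) Primrec.snd) ?_)
    refine D.all h (P := fun (l : (List ℕ × ℕ) × ℕ) (q : List ℕ × ℕ) => InL K l.1.1 q.1 →
      q.2 ∈ l.1.1 → (∀ x ∈ q.1, x < q.2) → (P (q.1 ++ [l.2]) ↔ P (q.1 ++ [q.2]))) ?_
    have p1 : Primrec fun a : ((List ℕ × ℕ) × ℕ) × List ℕ × ℕ => a.1.1.1 :=
      Primrec.fst.comp (Primrec.fst.comp Primrec.fst)
    have p2 : Primrec fun a : ((List ℕ × ℕ) × ℕ) × List ℕ × ℕ => a.1.2 :=
      Primrec.snd.comp Primrec.fst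
    have p3 : Primrec fun a : ((List ℕ × ℕ) × ℕ) × List ℕ × ℕ => a.2.1 :=
      Primrec.fst.comp Primrec.snd
    have p4 : Primrec fun a : ((List ℕ × ℕ) × ℕ) × List ℕ × ℕ => a.2.2 :=
      Primrec.snd.comp Primrec.snd
    refine D.imp h ?_ (D.imp h (dMem h p4 p1) (D.imp h (dAllLt h p3 p4)
      (D.iff h (dP h hP p3 p2) (dP h hP p3 p4))))
    exact D.and h (dLen h K p3) (D.and h (dPw h p3) (dSub h p3 p1))
  · unfold Hm
    refine D.all h (P := fun (l : List ℕ) (q : List ℕ × ℕ × ℕ) => InL K l q.1 → q.2.1 ∈ l →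
      q.2.2 ∈ l → (∀ x ∈ q.1, x < q.2.1) → (∀ x ∈ q.1, x < q.2.2) →
      (P (q.1 ++ [q.2.1]) ↔ P (q.1 ++ [q.2.2]))) ?_
    have p1 : Primrec fun a : List ℕ × List ℕ × ℕ × ℕ => a.1 := Primrec.fst
    have p2 : Primrec fun a : List ℕ × List ℕ × ℕ × ℕ => a.2.1 := Primrec.fst.comp Primrec.snd
    have p3 : Primrec fun a : List ℕ × List ℕ × ℕ × ℕ => a.2.2.1 :=
      Primrec.fst.comp (Primrec.snd.comp Primrec.snd)
    have p4 : Primrec fun a : List ℕ × List ℕ × ℕ × ℕ => a.2.2.2 :=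
      Primrec.snd.comp (Primrec.snd.comp Primrec.snd)
    refine D.imp h ?_ (D.imp h (dMem h p3 p1) (D.imp h (dMem h p4 p1) (D.imp h (dAllLt h p2 p3)
      (D.imp h (dAllLt h p2 p4) (D.iff h (dP h hP p2 p3) (dP h hP p2 p4))))))
    exact D.and h (dLen h K p2) (D.and h (dPw h p2) (dSub h p2 p1))

theorem II_nil (K : ℕ) (H₀ : Set ℕ) (hi : H₀.Infinite) (P : List ℕ → Prop) :
    II P K H₀ [] := by
  refine ⟨List.Pairwise.nil, by simp, fun N => ?_, ?_⟩
  · obtain ⟨b, hb, hN⟩ := hi.exists_gt N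
    exact ⟨b, hN, hb, by simp, fun q _ hq => absurd hq (by simp)⟩
  · intro q _ hq
    exact absurd hq (by simp)

/-- the infinite pigeon hole principle -/
theorem pigeon {B : Set ℕ} (hB : B.Infinite) {β : Type} [Finite β] (t : ℕ → β) :
    ∃ y, {b | b ∈ B ∧ t b = y}.Infinite := by
  have : Infinite B := Set.infinite_coe_iff.2 hB
  obtain ⟨y, hy⟩ := Finite.exists_infinite_fiber (fun b : B => t b)
  refine ⟨y, ?_⟩
  have h1 := (Set.infinite_coe_iff.1 hy).image (f := Subtype.val) Subtype.val_injective.injOn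
  refine h1.mono ?_
  rintro _ ⟨b, hb, rfl⟩
  exact ⟨b.2, hb⟩

theorem II_step (K : ℕ) (H₀ : Set ℕ) (P : List ℕ → Prop) (l : List ℕ) (hl : II P K H₀ l) :
    ∃ x, II P K H₀ (l ++ [x]) := by
  obtain ⟨h1, h2, h3, h4⟩ := hl
  have hB : {b | Rr P K H₀ l b}.Infinite := by
    refine Set.infinite_of_forall_exists_gt fun N => ?_
    obtain ⟨b, hb, hR⟩ := h3 N
    exact ⟨b, hR, hb⟩
  let t : ℕ → ((Fin K → Fin l.length) → Prop) := fun b v =>
    P (List.ofFn (fun i => l[(v i : ℕ)]) ++ [b])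
  obtain ⟨y, hy⟩ := pigeon hB t
  obtain ⟨x, hx, hxy⟩ := hy.nonempty
  -- equal types
  have ht : ∀ b, t b = y → ∀ S, InL K l S → (P (S ++ [b]) ↔ P (S ++ [x])) := by
    intro b hb S hS
    obtain ⟨s1, s2, s3⟩ := hS
    have hv : ∀ i : Fin K, ∃ j : Fin l.length, l[(j : ℕ)] = S[(i : ℕ)]'(by omega) := by
      intro i
      obtain ⟨j, hj, hj2⟩ := List.mem_iff_getElem.1 (s3 (S[(i : ℕ)]'(by omega))
        (List.getElem_mem _))
      exact ⟨⟨j, hj⟩, hj2⟩
    choose v hv using hv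
    have hS2 : List.ofFn (fun i => l[(v i : ℕ)]) = S := by
      apply List.ext_getElem
      · simp [s1]
      · intro n hn1 hn2
        simp [hv]
    have e1 : t b v = t x v := by rw [hb, hxy]
    have e2 : (P (List.ofFn (fun i => l[(v i : ℕ)]) ++ [b])) =
        P (List.ofFn (fun i => l[(v i : ℕ)]) ++ [x]) := e1
    rw [hS2] at e2
    rw [e2]
  obtain ⟨x1, x2, x3⟩ := hx
  -- lists below a member of `l ++ [x]` are in `l`
  have hlow : ∀ S c, InL K (l ++ [x]) S → c ∈ l ++ [x] → (∀ z ∈ S, z < c) → InL K l S := by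
    rintro S c ⟨s1, s2, s3⟩ hc hS
    refine ⟨s1, s2, fun z hz => ?_⟩
    have hcx : c ≤ x := by
      rcases List.mem_append.1 hc with hc | hc
      · exact (x2 c hc).le
      · exact (List.mem_singleton.1 hc).le
    rcases List.mem_append.1 (s3 z hz) with h | h
    · exact h
    · have := hS z hz
      have := List.mem_singleton.1 h
      omega
  refine ⟨x, ?_, ?_, ?_, ?_⟩
  · rw [List.pairwise_append]
    refine ⟨h1, List.pairwise_singleton _ _, fun a ha b hb => ?_⟩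
    rw [List.mem_singleton.1 hb]
    exact x2 a ha
  · intro z hz
    rcases List.mem_append.1 hz with h | h
    · exact h2 z h
    · rw [List.mem_singleton.1 h]
      exact x1
  · intro N
    obtain ⟨b, ⟨⟨b1, b2, b3⟩, hby⟩, hb⟩ := hy.exists_gt (max N x)
    refine ⟨b, lt_of_le_of_lt (le_max_left _ _) hb, b1, ?_, ?_⟩
    · intro z hz
      rcases List.mem_append.1 hz with h | h
      · exact b2 z h
      · rw [List.mem_singleton.1 h]
        exact lt_of_le_of_lt (le_max_right _ _) hb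
    · rintro ⟨S, c⟩ hS hc hSc
      have hS' := hlow S c hS hc hSc
      rcases List.mem_append.1 hc with h | h
      · exact b3 (S, c) hS' h hSc
      · have hcx : c = x := List.mem_singleton.1 h
        simp only [hcx]
        exact ht b hby S hS'
  · rintro ⟨S, c, d⟩ hS hc hd hSc hSd
    simp only at hS hc hd hSc hSd ⊢
    have hS' := hlow S c hS hc hSc
    rcases List.mem_append.1 hc with h | h
    · rcases List.mem_append.1 hd with h' | h'
      · exact h4 (S, c, d) hS' h h' hSc hSd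
      · rw [List.mem_singleton.1 h']
        exact (x3 (S, c) hS' h hSc).symm
    · rcases List.mem_append.1 hd with h' | h'
      · rw [List.mem_singleton.1 h]
        exact x3 (S, d) hS' h' hSd
      · rw [List.mem_singleton.1 h, List.mem_singleton.1 h']

theorem ramsey {𝓜 : Set (Set ℕ)} (h : Closed 𝓜) (K : ℕ) (H₀ : Set ℕ) (h₀ : H₀ ∈ 𝓜)
    (hi : H₀.Infinite) (P : List ℕ → Prop) (hP : D 𝓜 P) :
    ∃ H ⊆ H₀, H ∈ 𝓜 ∧ H.Infinite ∧ ((∀ l, Inc H K l → P l) ∨ (∀ l, Inc H K l → ¬ P l)) := by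
  induction K generalizing H₀ P with
  | zero =>
    refine ⟨H₀, subset_rfl, h₀, hi, ?_⟩
    by_cases hn : P []
    · exact Or.inl fun l hl => by rw [List.length_eq_zero_iff.1 hl.1]; exact hn
    · exact Or.inr fun l hl => by rw [List.length_eq_zero_iff.1 hl.1]; exact hn
  | succ K ih =>
    obtain ⟨a, ha, hI⟩ := exists_seq h (D_II h K H₀ h₀ P hP) (II_nil K H₀ hi P)
      (fun l hl => II_step K H₀ P l hl)
    have hmem : ∀ i n, i < n → a i ∈ (List.range n).map a := fun i n hin =>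
      List.mem_map.2 ⟨i, List.mem_range.2 hin, rfl⟩
    have hmono : StrictMono a := by
      intro i j hij
      have h1 := (hI (j + 1)).1
      rw [List.pairwise_map, List.pairwise_iff_getElem] at h1
      have h2 := h1 i j (by simp; omega) (by simp) hij
      simpa using h2
    have haH : ∀ i, a i ∈ H₀ := fun i => (hI (i + 1)).2.1 _ (hmem i (i + 1) (by omega))
    set A : Set ℕ := {x | ∃ n, a n = x} with hA
    have hAM : A ∈ 𝓜 := by
      rw [← D.nat_iff]
      refine D.ex h (P := fun (x : ℕ) (n : ℕ) => a n = x) ?_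
      exact D.comp h (P := fun p : ℕ × ℕ => a p.1 = p.2) ha
        (Primrec.pair Primrec.snd Primrec.fst)
    have hAi : A.Infinite := by
      have : A = Set.range a := by
        ext x
        simp [hA]
      rw [this]
      exact Set.infinite_range_of_injective hmono.injective
    have hAsub : A ⊆ H₀ := by
      rintro x ⟨n, rfl⟩
      exact haH n
    have hP' : D 𝓜 fun S : List ℕ => ∃ b : ℕ, b ∈ A ∧ (∀ x ∈ S, x < b) ∧ P (S ++ [b]) := by
      refine D.ex h (P := fun (S : List ℕ) (b : ℕ) => b ∈ A ∧ (∀ x ∈ S, x < b) ∧ P (S ++ [b])) ?_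
      exact D.and h (dSet h hAM Primrec.snd) (D.and h (dAllLt h Primrec.fst Primrec.snd)
        (dP h hP Primrec.fst Primrec.snd))
    obtain ⟨H, hHA, hHM, hHi, hH⟩ := ih A hAM hAi _ hP'
    refine ⟨H, hHA.trans hAsub, hHM, hHi, ?_⟩
    -- the truth does not depend on the last member
    have key : ∀ S b, InL K S S → (∀ x ∈ S, x ∈ A) → b ∈ A → (∀ x ∈ S, x < b) → ∀ c, c ∈ A →
        (∀ x ∈ S, x < c) → (P (S ++ [b]) ↔ P (S ++ [c])) := by
      rintro S b hS hSA ⟨i, rfl⟩ hSb _ ⟨j, rfl⟩ hSc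
      set n := max i j + 1 with hn
      have h1 := (hI n).2.2.2 (S, a i, a j)
      refine h1 ⟨hS.1, hS.2.1, fun x hx => ?_⟩ (hmem i n (by omega)) (hmem j n (by omega)) hSb hSc
      obtain ⟨k, rfl⟩ := hSA x hx
      have h2 := hSb _ hx
      have h3 : k < i := hmono.lt_iff_lt.1 h2
      exact hmem k n (by omega)
    have hsplit : ∀ l, Inc H (K + 1) l → ∃ S b, l = S ++ [b] ∧ Inc H K S ∧ b ∈ H ∧
        ∀ x ∈ S, x < b := by
      rintro l ⟨l1, l2, l3⟩
      have hne : l ≠ [] := by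
        rintro rfl
        simp at l1
      obtain ⟨S, b, rfl⟩ : ∃ S b, l = S ++ [b] :=
        ⟨l.dropLast, l.getLast hne, (List.dropLast_append_getLast hne).symm⟩
      rw [List.pairwise_append] at l2
      refine ⟨S, b, rfl, ⟨by simpa using l1, l2.1, fun x hx => l3 x (by simp [hx])⟩,
        l3 b (by simp), fun x hx => l2.2.2 x hx b (by simp)⟩
    rcases hH with hH | hH
    · left
      intro l hl
      obtain ⟨S, b, rfl, hS, hb, hSb⟩ := hsplit l hl
      obtain ⟨c, hc, hSc, hPc⟩ := hH S hS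
      exact (key S b ⟨hS.1, hS.2.1, fun x hx => hx⟩ (fun x hx => hHA (hS.2.2 x hx)) (hHA hb) hSb c
        hc hSc).2 hPc
    · right
      intro l hl hPl
      obtain ⟨S, b, rfl, hS, hb, hSb⟩ := hsplit l hl
      exact hH S hS ⟨b, hHA hb, hSb, hPl⟩

end Pool.Agent.Helper14.OV
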